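import Pool.Agent.H8.DS.TarK

namespace DS

open Set Data

namespace H73CTB

variable {C S : Type}

theorem deck_countable (X : Data C S) (c : C) : (X.deck c).Countable := by
  unfold Data.deck Comp.deck
  exact Set.countable_range _

theorem end_countable [Finite S] (X : Data C S) (c : C) : {z | X.OnEnd c z}.Countable := by
  have h : {z | X.OnEnd c z} ⊆ ⋃ s : S, (((fun g => act g (X.pt s 0)) '' X.deck c) ∪
      ((fun g => act g (X.pt s 1)) '' X.deck c)) := by
    rintro z ⟨s, _, g, hg, hz⟩
    refine mem_iUnion.2 ⟨s, ?_⟩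
    rcases hz with hz | hz
    · exact Or.inl ⟨g, hg, hz.symm⟩
    · exact Or.inr ⟨g, hg, hz.symm⟩
  refine Set.Countable.mono h ?_
  refine Set.countable_iUnion (fun s => ?_)
  exact ((deck_countable X c).image _).union ((deck_countable X c).image _)

end H73CTB

open H73CTB in
theorem pf_CTB : T_CTB := by
  intro C S _ X hX t s
  constructor
  · refine Set.Countable.mono (s₂ := (fun e : ℝ × ℝ => (e.1 - X.a (X.glue s) -
      t * (e.2 - X.b (X.glue s))) / X.len (X.glue s)) '' {z | X.OnEnd (X.comp (X.glue s)) z})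
      ?_ ((end_countable X _).image _)
    rintro ξ ⟨h, hh, _, he⟩
    refine ⟨_, he, ?_⟩
    have hl := (hX.pos (X.glue s)).ne'
    simp only [fwd, pt]
    field_simp
    ring
  · refine Set.Countable.mono (s₂ := (fun e : ℝ × ℝ => (e.1 + t * (X.b s - e.2) - X.a s) /
      X.len s) '' {z | X.OnEnd (X.comp s) z}) ?_ ((end_countable X _).image _)
    rintro ξ ⟨z, h, hh, he, _, hz⟩
    refine ⟨z, he, ?_⟩
    have hl := (hX.pos s).ne'
    simp only [fwd, pt, Prod.mk.injEq] at hz
    obtain ⟨h1, h2⟩ := hz
    have h3 : X.b s - z.2 = h := by linarith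
    simp only [h3]
    rw [← h1]
    field_simp
    ring

end DS
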