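import Pool.Agent.H8.DS.TarG

namespace DS

open Set Data

theorem pf_EQR (h1 : T_EQS) : T_EQR := by
  intro C S X hX t P P' Q Q' hP hQ hL
  obtain ⟨m, hm⟩ := hL
  obtain ⟨c', z'⟩ := P'
  obtain ⟨p1, g, hg, p2⟩ := hP
  simp only at p1 p2 hg
  subst p1
  subst p2
  have hsrc : ∀ R n, X.Step t P R n → ∃ k, X.Step t (P.1, act g P.2) R k := fun R n hs =>
    ⟨_, (h1 C S X hX t P R n hs).1 g hg⟩
  have htgt : ∀ R R' T n, X.Same R R' → X.Step t T R n → ∃ k, X.Step t T R' k := by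
    rintro R ⟨d, w⟩ T n ⟨q1, g', hg', q2⟩ hs
    simp only at q1 q2 hg'
    subst q1
    subst q2
    exact ⟨_, (h1 C S X hX t T R n hs).2.1 g' hg'⟩
  have hrefl : ∀ R : C × ℝ × ℝ, X.Same R R := fun R =>
    ⟨rfl, (1, 0, 0), deck_one X hX R.1, (act_one R.2).symm⟩
  induction hm generalizing Q' with
  | step hs =>
    obtain ⟨k, hk⟩ := hsrc _ _ hs
    obtain ⟨k', hk'⟩ := htgt _ _ _ _ hQ hk
    exact ⟨k', Reach.step hk'⟩
  | tail _ hs ih =>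
    obtain ⟨k, hk⟩ := ih _ (hrefl _)
    obtain ⟨k', hk'⟩ := htgt _ _ _ _ hQ hs
    exact ⟨_, Reach.tail hk hk'⟩

end DS
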