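import Pool.Agent.H8.DS.TarG

namespace DS

open Set Data

theorem pf_EQS (h1 : T_EQV) (h2 : T_SLU) : T_EQS := by
  intro C S X hX t P Q m hst
  obtain ⟨c, z, r, h, g₀, hS, hh, hcl, hval, hg₀, hQ, hm⟩ := hst
  subst hQ
  subst hm
  have hp₀ := deck_pos X hX c g₀ hg₀
  refine ⟨?_, ?_, ?_, ?_, ?_⟩
  · intro g hg
    cases hS with
    | pure c z hz =>
      simp only at hg ⊢
      have hp := deck_pos X hX c g hg
      obtain ⟨_, _, e3, _, e5⟩ := h1 C S X hX c g hg z
      have e4 := (h1 C S X hX c g hg (fwd t z h)).2.2.2.1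
      refine ⟨c, act g z, 1, g.1 * h, gmul g₀ (ginv g), Start.pure c _ (e3.2 hz),
        mul_pos hp hh, (e5 t h).2 hcl, ?_, deck_mul X hX c _ _ hg₀ (deck_inv X hX c g hg), ?_, ?_⟩
      · rw [← act_fwd]; exact e4.2 hval
      · rw [← act_fwd, act_gmul, act_ginv g hp.ne']
      · simp only [gmul, ginv, one_mul]; rfl
    | cross s g₁ ξ hg₁ h0 h1' =>
      simp only at hg ⊢
      have hp := deck_pos X hX _ g hg
      have hp1 := deck_pos X hX _ g₁ hg₁
      have hls := hX.pos s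
      refine ⟨_, _, X.len (X.glue s) / ((gmul g g₁).1 * X.len s), h, g₀, ?_, hh, hcl, hval, hg₀,
        rfl, ?_⟩
      · rw [← act_gmul]
        exact Start.cross s (gmul g g₁) ξ (deck_mul X hX _ _ _ hg hg₁) h0 h1'
      · simp only [gmul]
        field_simp
  · intro g hg
    simp only at hg ⊢
    refine ⟨c, z, r, h, gmul g g₀, hS, hh, hcl, hval, deck_mul X hX c _ _ hg hg₀, ?_, ?_⟩
    · rw [act_gmul]
    · simp only [gmul]; ring
  · exact (h1 C S X hX c g₀ hg₀ (fwd t z h)).2.2.2.1.2 hval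
  · cases hS with
    | pure c z hz =>
      refine ⟨?_, hz.2⟩
      rintro ⟨s, hs, g, hg, he⟩
      apply hz.1
      rcases he with he | he
      · exact ⟨s, hs, g, hg, 0, ⟨le_refl _, zero_le_one⟩, he⟩
      · exact ⟨s, hs, g, hg, 1, ⟨zero_le_one, le_refl _⟩, he⟩
    | cross s g₁ ξ hg₁ h0 h1' =>
      refine (h1 C S X hX _ g₁ hg₁ (X.pt s ξ)).2.2.2.1.2 ⟨?_, ?_⟩
      · rintro ⟨s', hs', g, hg, he⟩
        have hone := deck_one X hX (X.comp s)
        rcases he with he | he
        · have := (h2 C S X hX s s' hs'.symm _ hone g hg ξ ⟨h0.le, h1'.le⟩ 0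
            ⟨le_refl _, zero_le_one⟩ (by rw [act_one]; exact he)).2.2
          linarith
        · have := (h2 C S X hX s s' hs'.symm _ hone g hg ξ ⟨h0.le, h1'.le⟩ 1
            ⟨zero_le_one, le_refl _⟩ (by rw [act_one]; exact he)).2.2
          linarith
      · intro hc
        exact hX.origin s hc ξ ⟨h0.le, h1'.le⟩
  · have hr : 0 < r := by
      cases hS with
      | pure c z hz => exact one_pos
      | cross s g₁ ξ hg₁ h0 h1' =>
        exact div_pos (hX.pos _) (mul_pos (deck_pos X hX _ g₁ hg₁) (hX.pos s))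
    exact mul_pos hr hp₀

end DS
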