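import Pool.Agent.H8.DS.TarG

namespace DS

open Set Data

namespace H73EQV

variable {C S : Type}

theorem onSlit_act (X : Data C S) (hX : X.Surface) (c : C) (g : ℝ × ℝ × ℝ) (hg : g ∈ X.deck c)
    (z : ℝ × ℝ) (h : X.OnSlit c z) : X.OnSlit c (act g z) := by
  obtain ⟨s, hs, g₁, hg₁, ξ, hξ, rfl⟩ := h
  exact ⟨s, hs, gmul g g₁, deck_mul X hX c g g₁ hg hg₁, ξ, hξ, (act_gmul _ _ _).symm⟩

theorem onEnd_act (X : Data C S) (hX : X.Surface) (c : C) (g : ℝ × ℝ × ℝ) (hg : g ∈ X.deck c)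
    (z : ℝ × ℝ) (h : X.OnEnd c z) : X.OnEnd c (act g z) := by
  obtain ⟨s, hs, g₁, hg₁, hz⟩ := h
  refine ⟨s, hs, gmul g g₁, deck_mul X hX c g g₁ hg hg₁, ?_⟩
  rcases hz with rfl | rfl
  · left; exact (act_gmul _ _ _).symm
  · right; exact (act_gmul _ _ _).symm

theorem zero_act (X : Data C S) (hX : X.Surface) (c : C) (g : ℝ × ℝ × ℝ) (hg : g ∈ X.deck c)
    (hc : X.Hopf c) (z : ℝ × ℝ) (h : z ≠ 0) : act g z ≠ 0 := by
  have hp := deck_pos X hX c g hg
  obtain ⟨k, rfl⟩ := hg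
  cases hk : X.kind c with
  | flat e f =>
    unfold Hopf at hc
    rw [hk] at hc
    exact absurd hc (by simp [Comp.IsHopf])
  | hopf l =>
    rw [hk] at hp
    simp only [Comp.el] at hp ⊢
    intro h0
    apply h
    have h1 := congrArg Prod.fst h0
    have h2 := congrArg Prod.snd h0
    simp only [act, Prod.fst_zero, Prod.snd_zero, add_zero] at h1 h2
    have e1 : z.1 = 0 := by
      rcases mul_eq_zero.1 h1 with h | h
      · exact absurd h hp.ne'
      · exact h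
    have e2 : z.2 = 0 := by
      rcases mul_eq_zero.1 h2 with h | h
      · exact absurd h hp.ne'
      · exact h
    exact Prod.ext e1 e2

theorem back (X : Data C S) (hX : X.Surface) (c : C) (g : ℝ × ℝ × ℝ) (hg : g ∈ X.deck c)
    (p : ℝ × ℝ → Prop) (hp : ∀ g ∈ X.deck c, ∀ z, p z → p (act g z)) (z : ℝ × ℝ) :
    p (act g z) ↔ p z := by
  constructor
  · intro h
    have := hp (ginv g) (deck_inv X hX c g hg) _ h
    rwa [act_ginv g (deck_pos X hX c g hg).ne'] at this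
  · exact hp g hg z

theorem slit_iff (X : Data C S) (hX : X.Surface) (c : C) (g : ℝ × ℝ × ℝ) (hg : g ∈ X.deck c)
    (z : ℝ × ℝ) : X.OnSlit c (act g z) ↔ X.OnSlit c z :=
  back X hX c g hg (X.OnSlit c) (fun g hg z h => onSlit_act X hX c g hg z h) z

theorem end_iff (X : Data C S) (hX : X.Surface) (c : C) (g : ℝ × ℝ × ℝ) (hg : g ∈ X.deck c)
    (z : ℝ × ℝ) : X.OnEnd c (act g z) ↔ X.OnEnd c z :=
  back X hX c g hg (X.OnEnd c) (fun g hg z h => onEnd_act X hX c g hg z h) z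

theorem nz_iff (X : Data C S) (hX : X.Surface) (c : C) (g : ℝ × ℝ × ℝ) (hg : g ∈ X.deck c)
    (z : ℝ × ℝ) : (X.Hopf c → act g z ≠ 0) ↔ (X.Hopf c → z ≠ 0) :=
  back X hX c g hg (fun z => X.Hopf c → z ≠ 0)
    (fun g hg z h hc => zero_act X hX c g hg hc z (h hc)) z

theorem pure_iff (X : Data C S) (hX : X.Surface) (c : C) (g : ℝ × ℝ × ℝ) (hg : g ∈ X.deck c)
    (z : ℝ × ℝ) : X.Pure c (act g z) ↔ X.Pure c z := by
  unfold Data.Pure
  rw [slit_iff X hX c g hg z]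
  constructor
  · rintro ⟨h1, h2⟩; exact ⟨h1, (nz_iff X hX c g hg z).1 h2⟩
  · rintro ⟨h1, h2⟩; exact ⟨h1, (nz_iff X hX c g hg z).2 h2⟩

theorem valid_iff (X : Data C S) (hX : X.Surface) (c : C) (g : ℝ × ℝ × ℝ) (hg : g ∈ X.deck c)
    (z : ℝ × ℝ) : X.Valid c (act g z) ↔ X.Valid c z := by
  unfold Valid
  rw [end_iff X hX c g hg z]
  constructor
  · rintro ⟨h1, h2⟩; exact ⟨h1, (nz_iff X hX c g hg z).1 h2⟩
  · rintro ⟨h1, h2⟩; exact ⟨h1, (nz_iff X hX c g hg z).2 h2⟩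

end H73EQV

open H73EQV in
theorem pf_EQV : T_EQV := by
  intro C S X hX c g hg z
  refine ⟨slit_iff X hX c g hg z, end_iff X hX c g hg z, pure_iff X hX c g hg z,
    valid_iff X hX c g hg z, ?_⟩
  intro t h
  have hp := deck_pos X hX c g hg
  constructor
  · intro hc k hk0 hk1
    have := hc (g.1 * k) (mul_pos hp hk0) (mul_lt_mul_of_pos_left hk1 hp)
    rw [← act_fwd] at this
    exact (pure_iff X hX c g hg _).1 this
  · intro hc k hk0 hk1
    have h1 : k / g.1 < h := by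
      rw [div_lt_iff₀ hp]; linarith
    have := hc (k / g.1) (div_pos hk0 hp) h1
    have h2 := (pure_iff X hX c g hg _).2 this
    rw [act_fwd] at h2
    have h3 : g.1 * (k / g.1) = k := by field_simp
    rwa [h3] at h2

end DS
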