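import Pool.Agent.H8.DS.TarK

namespace DS

open Set Data

theorem pf_FCGO : T_FCGO := by
  intro C S B Q X w M t ht n
  induction n with
  | zero =>
    intro y y'
    simp only [FC]
    constructor
    · intro h
      exact ⟨[], rfl, by simp, h⟩
    · rintro ⟨v, hv, _, hg⟩
      have := List.eq_nil_of_length_eq_zero hv
      subst this
      exact hg
  | succ n ih =>
    intro y y'
    simp only [FC]
    constructor
    · rintro ⟨y₁, hhit, hH, hfc⟩
      obtain ⟨b, b1, b2, b3, b4⟩ := (M.hit t ht y y₁).1 hhit
      obtain ⟨v, v1, v2, v3⟩ := (ih y₁ y').1 hfc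
      refine ⟨b :: v, by simp [v1], ?_, b1, b3, ?_⟩
      · intro b' hb'
        rcases List.mem_cons.1 hb' with h | h
        · subst h
          rw [b1]
          exact hH
        · exact v2 b' h
      · have he : y₁ = ((M.toFam.sys t).tgt b, (M.toFam.sys t).al b * y.2 +
            (M.toFam.sys t).c b) := Prod.ext b2.symm b4
        rw [← he]
        exact v3
    · rintro ⟨v, v1, v2, v3⟩
      cases v with
      | nil => simp at v1
      | cons b v =>
        obtain ⟨g1, g2, g3⟩ := v3
        refine ⟨((M.toFam.sys t).tgt b, (M.toFam.sys t).al b * y.2 + (M.toFam.sys t).c b), ?_,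
          ?_, ?_⟩
        · exact (M.hit t ht _ _).2 ⟨b, g1, rfl, g2, rfl⟩
        · have := v2 b (by simp)
          have h1 : M.src b = y.1 := g1
          rw [h1] at this
          exact this
        · exact (ih _ _).2 ⟨v, by simpa using v1, fun b' hb' => v2 b' (by simp [hb']), g3⟩

end DS
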