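import Pool.Agent.H8.DS.TarG

namespace DS

open Set Data

theorem pf_FSOK (h1 : T_RAY) (h2 : T_NEG) (h3 : T_MID) (h4 : T_CHHC) (h5 : T_CL)
    (h6 : T_TRANS) : T_FSOK := by
  intro C S _ _ X hX hU t ht hN
  have hper : ∀ (y : S × ℝ) (n : ℕ), 0 < n → X.HC t n y y → X.Pure (X.mid t y).1 (X.mid t y).2 ∧
      (∃ m, X.Step t (X.sp y) (X.mid t y) m) ∧ X.ClosedAt t (X.mid t y) := by
    intro y n hn hc
    obtain ⟨n, rfl⟩ : ∃ k, n = k + 1 := ⟨n - 1, by omega⟩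
    obtain ⟨y₁, hhit, hc'⟩ := hc
    obtain ⟨_, _, m3, ⟨a, m4⟩, ⟨b, m5⟩⟩ := h3 C S X hX t y y₁ hhit
    refine ⟨m3, ⟨a, m4⟩, ?_⟩
    rcases Nat.eq_zero_or_pos n with h0 | h0
    · subst h0
      have he : y₁ = y := hc'
      subst he
      exact ⟨_, Reach.tail (Reach.step m5) m4⟩
    · obtain ⟨e, he⟩ := (h4 C S X hX t n y₁ y hhit.2.1).2 h0 hc'
      exact ⟨_, Reach.tail (h6 C S X t _ _ _ _ _ (Reach.step m5) he) m4⟩
  have hlow : ∀ c, X.Hopf c → ∀ k > 0, X.Pure c (-1 * k * t, -1 * k) := by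
    intro c hc k hk
    apply h2 C S X hX hU c hc
    simp only
    linarith
  refine ⟨?_, ?_, ?_, ?_⟩
  · refine Set.Finite.subset (s := (range (fun c : C => ((c, -t, -1) : C × ℝ × ℝ)) ∪
      range (fun c : C => ((c, t, 1) : C × ℝ × ℝ))) ∪
      (X.mid t) '' {y : S × ℝ | ∃ n, 0 < n ∧ X.HC t n y y})
      (((finite_range _).union (finite_range _)).union (hN.fin.image _)) ?_
    rintro Q (⟨c, _, hQ⟩ | ⟨c, _, _, hQ⟩ | ⟨y, hy, hQ⟩)
    · exact Or.inl (Or.inl ⟨c, hQ.symm⟩)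
    · exact Or.inl (Or.inr ⟨c, hQ.symm⟩)
    · exact Or.inr ⟨y, hy, hQ.symm⟩
  · obtain ⟨c, hc⟩ := hX.hopf
    exact ⟨(c, -t, -1), Or.inl ⟨c, hc, rfl⟩⟩
  · rintro Q (⟨c, hc, hQ⟩ | ⟨c, hc, hp, hQ⟩ | ⟨y, ⟨n, hn, hy⟩, hQ⟩)
    · subst hQ
      refine ⟨h2 C S X hX hU c hc _ (by simp), ?_⟩
      have := h1 C S X hX t c hc (-1) (Or.inr rfl) (hlow c hc) 1 one_pos 1 one_pos
      have h9 : X.Leaf t (c, -t, -1) (c, -t, -1) := by simpa using this
      exact h9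
    · subst hQ
      refine ⟨by simpa using hp 1 one_pos, ?_⟩
      have := h1 C S X hX t c hc 1 (Or.inl rfl) (fun k hk => by simpa using hp k hk) 1 one_pos 1
        one_pos
      have h9 : X.Leaf t (c, t, 1) (c, t, 1) := by simpa using this
      exact h9
    · subst hQ
      have := hper y n hn hy
      exact ⟨this.1, this.2.2⟩
  · rintro P ⟨m, hm⟩
    rcases h5 C S X hX hU t ht P m hm with ⟨y, n, hy, ⟨a, ha⟩, hn, hch⟩ | ⟨hH, _, k, hk, hkk⟩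
    · have hc := (h4 C S X hX t n y y hy).1.1 ⟨m, hch⟩
      obtain ⟨_, ⟨b, hb⟩, _⟩ := hper y n hn hc
      exact ⟨X.mid t y, Or.inr (Or.inr ⟨y, ⟨n, hn, hc⟩, rfl⟩), _, Reach.tail ha hb⟩
    · obtain ⟨c, z⟩ := P
      simp only at hH hk hkk
      subst hk
      rcases hkk with hneg | ⟨hpos, hp⟩
      · refine ⟨(c, -t, -1), Or.inl ⟨c, hH, rfl⟩, ?_⟩
        have := h1 C S X hX t c hH (-1) (Or.inr rfl) (hlow c hH) (-k) (by linarith) 1 one_pos
        have h9 : X.Leaf t (c, k * t, k) (c, -t, -1) := by simpa using this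
        exact h9
      · refine ⟨(c, t, 1), Or.inr (Or.inl ⟨c, hH, hp, rfl⟩), ?_⟩
        have := h1 C S X hX t c hH 1 (Or.inl rfl) (fun k hk => by simpa using hp k hk) k hpos 1
          one_pos
        have h9 : X.Leaf t (c, k * t, k) (c, t, 1) := by simpa using this
        exact h9

end DS
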