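import Pool.Agent.H8.DS.TarG

namespace DS

open Set Data

theorem pf_GEO (h1 : T_FSOK) (h2 : T_CL) (h3 : T_LOOP) (h4 : T_FW) (h5 : T_BW) (h6 : T_ACC)
    (h7 : T_TRANS) (h8 : T_EQS) : T_GEO := by
  intro C S _ _ X w hX hU hw t ht hN
  obtain ⟨f1, f2, f3, f4⟩ := h1 C S X hX hU t ht hN
  have htgt : ∀ P Q m, X.Reach t P Q m → X.Valid Q.1 Q.2 := by
    intro P Q m h
    cases h with
    | step h => exact (h8 C S X hX t _ _ _ h).2.2.1
    | tail _ h => exact (h8 C S X hX t _ _ _ h).2.2.1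
  have hsrc : ∀ P Q m, X.Reach t P Q m → X.Valid P.1 P.2 := by
    intro P Q m h
    induction h with
    | step h => exact (h8 C S X hX t _ _ _ h).2.2.2.1
    | tail _ _ ih => exact ih
  refine ⟨X.FS t, f1, f2, f3, f4, ?_, ?_⟩
  · intro P m hm
    rcases h2 C S X hX hU t ht P m hm with ⟨y, n, hy, _, hn, hch⟩ | ⟨_, h, _⟩
    · exact (h3 C S X w hX hw t hN.flat y n m hy hn hch).ne
    · exact h
  · intro P hP _
    constructor
    · intro hI
      refine (h6 C S X hX t P (X.FS t) f1 hP).1 ?_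
      rintro R (rfl | ⟨m, hm⟩) ε hε
      · exact h4 C S X hX hU t ht hN R hP hI ε hε
      · refine h4 C S X hX hU t ht hN R (htgt _ _ _ hm) ⟨hI.2 R m hm, ?_⟩ ε hε
        intro Q n hQ
        exact hI.2 Q _ (h7 C S X t _ _ _ _ _ hm hQ)
    · intro hI
      refine (h6 C S X hX t P (X.FS t) f1 hP).2 ?_
      rintro R (rfl | ⟨m, hm⟩) ε hε
      · exact h5 C S X hX hU t ht hN R hP hI ε hε
      · refine h5 C S X hX hU t ht hN R (hsrc _ _ _ hm) ⟨hI.2 R m hm, ?_⟩ ε hε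
        intro Q n hQ
        exact hI.2 Q _ (h7 C S X t _ _ _ _ _ hQ hm)

end DS
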