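import Pool.Agent.H8.DS.TarG

namespace DS

open Set Data

namespace H73MID

variable {C S : Type}

theorem pure_valid (X : Data C S) (c : C) (z : ℝ × ℝ) (hz : X.Pure c z) : X.Valid c z := by
  refine ⟨?_, hz.2⟩
  rintro ⟨s, hs, g, hg, he⟩
  apply hz.1
  rcases he with he | he
  · exact ⟨s, hs, g, hg, 0, ⟨le_refl _, zero_le_one⟩, he⟩
  · exact ⟨s, hs, g, hg, 1, ⟨zero_le_one, le_refl _⟩, he⟩

theorem slit_valid (h1 : T_EQV) (h2 : T_SLU) (X : Data C S) (hX : X.Surface) (s : S)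
    (g : ℝ × ℝ × ℝ) (hg : g ∈ X.deck (X.comp s)) (ξ : ℝ) (hξ : ξ ∈ Ioo (0 : ℝ) 1) :
    X.Valid (X.comp s) (act g (X.pt s ξ)) := by
  obtain ⟨h0, h1'⟩ := hξ
  refine (h1 C S X hX _ g hg (X.pt s ξ)).2.2.2.1.2 ⟨?_, ?_⟩
  · rintro ⟨s', hs', g', hg', he⟩
    have hone := deck_one X hX (X.comp s)
    rcases he with he | he
    · have := (h2 C S X hX s s' hs'.symm _ hone g' hg' ξ ⟨h0.le, h1'.le⟩ 0
        ⟨le_refl _, zero_le_one⟩ (by rw [act_one]; exact he)).2.2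
      linarith
    · have := (h2 C S X hX s s' hs'.symm _ hone g' hg' ξ ⟨h0.le, h1'.le⟩ 1
        ⟨zero_le_one, le_refl _⟩ (by rw [act_one]; exact he)).2.2
      linarith
  · intro hc
    exact hX.origin s hc ξ ⟨h0.le, h1'.le⟩

theorem cross_one (X : Data C S) (hX : X.Surface) (s : S) (ξ : ℝ) (hξ : ξ ∈ Ioo (0 : ℝ) 1) :
    ∃ r, X.Start (X.sp (s, ξ)) (X.comp (X.glue s)) (X.pt (X.glue s) ξ) r := by
  have := Start.cross (X := X) s (1, 0, 0) ξ (deck_one X hX _) hξ.1 hξ.2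
  rw [act_one] at this
  exact ⟨_, this⟩

end H73MID

open H73MID in
theorem pf_MID (h1 : T_EQV) (h2 : T_SLU) : T_MID := by
  intro C S X hX t y y' hhit
  obtain ⟨hy, hy', hc, g, hg, h₀, hh₀, hcl, he⟩ := hhit
  have hset : {h | X.Clear t (X.comp (X.glue y.1)) (X.pt (X.glue y.1) y.2) h} = Iic h₀ := by
    ext h
    simp only [mem_setOf_eq, mem_Iic]
    constructor
    · intro hcl'
      by_contra hlt
      push Not at hlt
      have := (hcl' h₀ hh₀ hlt).1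
      apply this
      exact ⟨y'.1, hc, g, by rw [← hc]; exact hg, y'.2, ⟨hy'.1.le, hy'.2.le⟩, he⟩
    · intro hle k hk0 hk1
      exact hcl k hk0 (lt_of_lt_of_le hk1 hle)
  have hup : X.up t y = h₀ := by
    unfold up
    rw [hset, csSup_Iic]
  have hmid : X.mid t y = (X.comp (X.glue y.1), fwd t (X.pt (X.glue y.1) y.2) (h₀ / 2)) := by
    unfold mid
    rw [hup]
  have hpure : X.Pure (X.comp (X.glue y.1)) (fwd t (X.pt (X.glue y.1) y.2) (h₀ / 2)) :=
    hcl _ (by linarith) (by linarith)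
  rw [hup, hmid]
  refine ⟨hh₀, hcl, hpure, ?_, ?_⟩
  · obtain ⟨r, hr⟩ := cross_one X hX y.1 y.2 hy
    refine ⟨r * 1, X.comp (X.glue y.1), X.pt (X.glue y.1) y.2, r, h₀ / 2, (1, 0, 0), hr,
      by linarith, ?_, pure_valid X _ _ hpure, deck_one X hX _, ?_, rfl⟩
    · intro k hk0 hk1
      exact hcl k hk0 (by linarith)
    · rw [act_one]
  · have hfw : fwd t (fwd t (X.pt (X.glue y.1) y.2) (h₀ / 2)) (h₀ / 2) =
        act g (X.pt y'.1 y'.2) := by
      rw [fwd_add, ← he]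
      congr 1
      ring
    refine ⟨1 * (ginv g).1, X.comp (X.glue y.1), fwd t (X.pt (X.glue y.1) y.2) (h₀ / 2), 1,
      h₀ / 2, ginv g, Start.pure _ _ hpure, by linarith, ?_, ?_, ?_, ?_, rfl⟩
    · intro k hk0 hk1
      rw [fwd_add]
      exact hcl _ (by linarith) (by linarith)
    · rw [hfw, ← hc]
      exact slit_valid h1 h2 X hX y'.1 g hg y'.2 hy'
    · rw [← hc]
      exact deck_inv X hX _ g hg
    · rw [hfw, act_ginv g (deck_pos X hX _ g hg).ne', ← hc]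
      rfl

end DS
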