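import Pool.Agent.H8.DS.TarG

namespace DS

open Set Data

namespace H73MIDN

variable {C S : Type}

theorem pure_valid (X : Data C S) (c : C) (z : ℝ × ℝ) (hz : X.Pure c z) : X.Valid c z := by
  refine ⟨?_, hz.2⟩
  rintro ⟨s, hs, g, hg, he⟩
  apply hz.1
  rcases he with he | he
  · exact ⟨s, hs, g, hg, 0, ⟨le_refl _, zero_le_one⟩, he⟩
  · exact ⟨s, hs, g, hg, 1, ⟨zero_le_one, le_refl _⟩, he⟩

theorem cross_one (X : Data C S) (hX : X.Surface) (s : S) (ξ : ℝ) (hξ : ξ ∈ Ioo (0 : ℝ) 1) :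
    ∃ r, X.Start (X.sp (s, ξ)) (X.comp (X.glue s)) (X.pt (X.glue s) ξ) r := by
  have := Start.cross (X := X) s (1, 0, 0) ξ (deck_one X hX _) hξ.1 hξ.2
  rw [act_one] at this
  exact ⟨_, this⟩

end H73MIDN

open H73MIDN in
theorem pf_MIDN (h1 : T_TUBE) (h2 : T_MID) : T_MIDN := by
  intro C S _ X hX t y y' hhit ε hε
  obtain ⟨hup, hcl, _, _, _⟩ := h2 C S X hX t y y' hhit
  have hy := hhit.1
  set c := X.comp (X.glue y.1) with hc
  set z := X.pt (X.glue y.1) y.2 with hz
  set u := X.up t y with hu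
  have hlen := hX.pos (X.glue y.1)
  have hcl' : X.Clear t c z (3 * u / 4) := fun k hk0 hk1 => hcl k hk0 (by linarith)
  obtain ⟨e0, he0, hT⟩ := h1 C S X hX t c z (3 * u / 4) (fun hH =>
    ⟨hX.origin _ hH y.2 ⟨hy.1.le, hy.2.le⟩, (hcl _ (by linarith) (by linarith)).2 hH⟩) hcl'
  refine ⟨min (min (e0 / X.len (X.glue y.1)) (ε / X.len (X.glue y.1))) (min y.2 (1 - y.2)),
    ?_, ?_⟩
  · refine lt_min (lt_min (div_pos he0 hlen) (div_pos hε hlen)) (lt_min hy.1 ?_)
    linarith [hy.2]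
  · intro ξ hξ
    have a1 : |ξ - y.2| < e0 / X.len (X.glue y.1) :=
      lt_of_lt_of_le hξ ((min_le_left _ _).trans (min_le_left _ _))
    have a2 : |ξ - y.2| < ε / X.len (X.glue y.1) :=
      lt_of_lt_of_le hξ ((min_le_left _ _).trans (min_le_right _ _))
    have a3 : |ξ - y.2| < y.2 := lt_of_lt_of_le hξ ((min_le_right _ _).trans (min_le_left _ _))
    have a4 : |ξ - y.2| < 1 - y.2 :=
      lt_of_lt_of_le hξ ((min_le_right _ _).trans (min_le_right _ _))
    rw [lt_div_iff₀ hlen] at a1 a2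
    have hξ1 : ξ ∈ Ioo (0 : ℝ) 1 := by
      constructor
      · have := (abs_lt.1 a3).1; linarith
      · have := (abs_lt.1 a4).2; linarith
    have habs : |(ξ - y.2) * X.len (X.glue y.1)| = |ξ - y.2| * X.len (X.glue y.1) := by
      rw [abs_mul, abs_of_pos hlen]
    have hcl2 := hT ((ξ - y.2) * X.len (X.glue y.1)) (by rw [habs]; exact a1)
    have hz' : (z.1 + (ξ - y.2) * X.len (X.glue y.1), z.2) = X.pt (X.glue y.1) ξ := by
      rw [hz]
      unfold pt
      ext
      · simp; ring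
      · simp
    rw [hz'] at hcl2
    obtain ⟨r, hr⟩ := cross_one X hX y.1 ξ hξ1
    have hpure : X.Pure c (fwd t (X.pt (X.glue y.1) ξ) (u / 2)) :=
      hcl2 _ (by linarith) (by linarith)
    refine ⟨(c, fwd t (X.pt (X.glue y.1) ξ) (u / 2)), r * 1, ⟨c, X.pt (X.glue y.1) ξ, r, u / 2,
      (1, 0, 0), hr, by linarith, ?_, pure_valid X _ _ hpure, deck_one X hX _, ?_, rfl⟩, ?_⟩
    · intro k hk0 hk1
      exact hcl2 k hk0 (by linarith)
    · rw [act_one]
    · refine ⟨rfl, ?_, ?_⟩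
      · show |(fwd t (X.pt (X.glue y.1) ξ) (u / 2)).1 - (fwd t z (u / 2)).1| < ε
        have : (fwd t (X.pt (X.glue y.1) ξ) (u / 2)).1 - (fwd t z (u / 2)).1 =
            (ξ - y.2) * X.len (X.glue y.1) := by
          rw [hz]
          unfold fwd pt
          simp
          ring
        rw [this, habs]
        exact a2
      · show |(fwd t (X.pt (X.glue y.1) ξ) (u / 2)).2 - (fwd t z (u / 2)).2| < ε
        have : (fwd t (X.pt (X.glue y.1) ξ) (u / 2)).2 - (fwd t z (u / 2)).2 = 0 := by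
          rw [hz]
          unfold fwd pt
          simp
        rw [this, abs_zero]
        exact hε

end DS
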