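import Pool.Agent.H8.DS.TarG

namespace DS

open Set Data

theorem pf_SAMEEQ : T_SAMEEQ := by
  intro C S X hX
  constructor
  · intro P
    exact ⟨rfl, (1, 0, 0), deck_one X hX P.1, (act_one P.2).symm⟩
  · rintro ⟨c, z⟩ ⟨c', z'⟩ ⟨h1, g, hg, h2⟩
    simp only at h1 h2 hg
    subst h1
    refine ⟨rfl, ginv g, deck_inv X hX c g hg, ?_⟩
    simp only
    rw [h2, act_ginv g (deck_pos X hX c g hg).ne']
  · rintro ⟨c, z⟩ ⟨c', z'⟩ ⟨c'', z''⟩ ⟨h1, g, hg, h2⟩ ⟨h3, g', hg', h4⟩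
    simp only at h1 h2 hg h3 h4 hg'
    subst h1
    subst h3
    refine ⟨rfl, gmul g' g, deck_mul X hX c g' g hg' hg, ?_⟩
    simp only
    rw [act_gmul, h4, h2]

end DS
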