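import Pool.Agent.H8.DS.TarG

namespace DS

open Set Data

theorem pf_SLU : T_SLU := by
  intro C S X hX s s' hs g hg g' hg' ξ hξ ξ' hξ' h
  have hp := deck_pos X hX _ g hg
  have hp' := deck_pos X hX _ g' hg'
  have hmem : gmul (ginv g) g' ∈ X.deck (X.comp s') := by
    rw [← hs]
    exact deck_mul X hX _ _ _ (deck_inv X hX _ g hg) hg'
  have he : X.pt s ξ = act (gmul (ginv g) g') (X.pt s' ξ') := by
    rw [act_gmul, ← h, act_ginv g hp.ne']
  obtain ⟨h1, h2⟩ := hX.disj s s' hs _ hmem ξ hξ ξ' hξ' he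
  subst h1
  have hgg : g = g' := by
    simp only [gmul, ginv, Prod.mk.injEq] at h2
    obtain ⟨e1, e2, e3⟩ := h2
    have h0 := hp.ne'
    have q1 : g'.1 = g.1 := by
      field_simp at e1
      exact e1
    have q2 : g'.2.1 = g.2.1 := by
      field_simp at e2
      linarith
    have q3 : g'.2.2 = g.2.2 := by
      field_simp at e3
      linarith
    exact (Prod.ext q1 (Prod.ext q2 q3)).symm
  refine ⟨rfl, hgg, ?_⟩
  rw [h2, act_one] at he
  have := congrArg Prod.fst he
  simp only [pt] at this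
  have hl := hX.pos s
  have h3 : ξ * X.len s = ξ' * X.len s := by linarith
  exact mul_right_cancel₀ hl.ne' h3

end DS
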