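import Pool.Agent.H8.DS.TarG

namespace DS

open Set Data

theorem pf_START (h1 : T_SLU) : T_START := by
  intro C S X hX P c z r c' z' r' ha hb
  generalize hP : P = P' at hb
  cases ha with
  | pure c z h =>
    cases hb with
    | pure c' z' h' =>
      simp only [Prod.mk.injEq] at hP
      exact ⟨hP.1, hP.2, rfl⟩
    | cross s g ξ hg h0 h1' =>
      simp only [Prod.mk.injEq] at hP
      obtain ⟨e1, e2⟩ := hP
      exfalso
      apply h.1
      subst e1
      exact ⟨s, rfl, g, hg, ξ, ⟨h0.le, h1'.le⟩, e2⟩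
  | cross s g ξ hg h0 h1' =>
    cases hb with
    | pure c' z' h' =>
      simp only [Prod.mk.injEq] at hP
      obtain ⟨e1, e2⟩ := hP
      exfalso
      apply h'.1
      subst e1
      exact ⟨s, rfl, g, hg, ξ, ⟨h0.le, h1'.le⟩, e2.symm⟩
    | cross s' g' ξ' hg' h0' h1'' =>
      simp only [Prod.mk.injEq] at hP
      obtain ⟨e1, e2⟩ := hP
      obtain ⟨a1, a2, a3⟩ := h1 C S X hX s s' e1 g hg g' (by rw [e1]; exact hg') ξ
        ⟨h0.le, h1'.le⟩ ξ' ⟨h0'.le, h1''.le⟩ e2
      subst a1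
      subst a2
      subst a3
      exact ⟨rfl, rfl, rfl⟩

end DS
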