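import Pool.Agent.H8.DS.TarG

namespace DS

open Set Data

theorem pf_TRANS : T_TRANS := by
  intro C S X t P Q R m n hPQ hQR
  induction hQR with
  | step h => exact Reach.tail hPQ h
  | tail _ h' ih =>
    rw [← mul_assoc]
    exact Reach.tail ih h'

end DS
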